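import Pool.Agent.Work.MP_8d04b0_an.Main

set_option autoImplicit false

open Pool.Agent.Work.MP_8d04b0_an

namespace Pool.Agent.Results.MP_8d04b0_an.ConvolutionCRG

/-- Let `f` be entire of exponential type and completely regular growth and let `φ ≢ 0` be entire
of exponential type, nonzero at every corner of the conjugate diagram of `f`.  Then `φ(D) f` has
completely regular growth, except when `φ(D) f` vanishes identically, the conjugate diagram of `f`
is a single point `l` and `φ l = 0`. -/
theorem result (f φ : ℂ → ℂ) (hf : CRG f) (hφ : ExpType φ) (hφ0 : ∃ z, φ z ≠ 0)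
    (hcorner : ∀ l : ℂ, IsCorner (conjDiagram f) l → φ l ≠ 0) :
    CRG (opD φ f) ∨ ((∀ z, opD φ f z = 0) ∧ ∃ l : ℂ, conjDiagram f = {l} ∧ φ l = 0) :=
  main hf hφ hφ0 hcorner

end Pool.Agent.Results.MP_8d04b0_an.ConvolutionCRG
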